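import Pool.Agent.Lib.MP_2d211a_co.Two

namespace Pool.Agent.Results.MP_2d211a_co.AbelianPGroups

open Pool.Agent.Lib.MP_2d211a_co

theorem result (p n : ℕ) (hp : p.Prime) (E : Type) [CommGroup E] (hE : Nat.card E = p ^ n) :
    ContainsSemiregularRDS E ↔ 2 ≤ n ∧
      if p = 2 then
        Monoid.exponent E ≤ 2 ^ (n / 2 + 1) ∧ ¬ (Monoid.exponent E = 2 ∧ (n = 2 ∨ n = 4))
      else
        Monoid.exponent E ≤ p ^ ((n + 1) / 2) ∧
          ∀ k, 2 ≤ k → ¬ Nonempty (E ≃* Multiplicative (ZMod (p ^ k) × ZMod (p ^ k))) := by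
  classical
  have : Fact p.Prime := ⟨hp⟩
  have : Finite E := Nat.finite_of_card_ne_zero (hE ▸ (pow_pos hp.pos n).ne')
  have : Fintype (Additive E) := Fintype.ofFinite _
  obtain ⟨e, -, he⟩ := (Nat.dvd_prime_pow hp).1 (hE ▸ Group.exponent_dvd_nat_card (G := E))
  have key : ∀ t, (∀ x : Additive E, p ^ t • x = 0) ↔ Monoid.exponent E ≤ p ^ t := fun t => by
    rw [he, Nat.pow_le_pow_iff_right hp.one_lt, ← Nat.pow_dvd_pow_iff_le_right hp.one_lt, ← he,
      Monoid.exponent_dvd_iff_forall_pow_eq_one]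
    exact Iff.rfl
  split_ifs with h2
  · subst h2
    refine ((contains_iff (Additive E)).trans (classify_two (G := Additive E) hE)).trans ?_
    refine and_congr_right fun hn => and_congr (key _) (not_congr (and_congr_left' ?_))
    have h1 : Monoid.exponent E ≠ 1 := fun h => by
      have := Monoid.exp_eq_one_iff.1 h
      rw [Nat.card_of_subsingleton (1 : E), ← pow_zero 2, Nat.pow_right_inj one_lt_two] at hE
      omega
    have h0 : Monoid.exponent E ≠ 0 := Monoid.exponent_ne_zero_of_finite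
    have := key 1
    rw [pow_one] at this
    rw [this]
    omega
  · have h3 : 2 < p := lt_of_le_of_ne hp.two_le (Ne.symm h2)
    refine ((contains_iff (Additive E)).trans (classify_add h3 (G := Additive E) hE)).trans ?_
    refine and_congr_right fun _ => and_congr (key _) (forall₂_congr fun k _ => not_congr ?_)
    exact ⟨fun ⟨φ⟩ => ⟨AddEquiv.toMultiplicativeRight φ⟩,
      fun ⟨φ⟩ => ⟨AddEquiv.toMultiplicativeRight.symm φ⟩⟩

end Pool.Agent.Results.MP_2d211a_co.AbelianPGroups
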