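import Pool.Agent.Lib.MP_2d211a_co.S17EMain
import Pool.Agent.Lib.MP_2d211a_co.S64AO
import Pool.Agent.Lib.MP_2d211a_co.S64AT
import Pool.Agent.Lib.MP_2d211a_co.S64BMain

namespace Pool.Agent.Results.MP_2d211a_co.AlmostAllTame

open Pool.Agent.Lib.MP_2d211a_co CategoryTheory

theorem result (c : ℕ) (S : Set GrpCat.{0})
    (few : ∀ m, 0 < m → (Quotient.mk (isIsomorphicSetoid GrpCat.{0}) ''
      {T | T ∈ S ∧ Nat.card T = m}).ncard ≤ m ^ c)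
    (aut : ∀ T ∈ S, Finite T → ∃ u, Odd u ∧ u ∣ Nat.card T ∧ Nat.card (MulAut T) ≤ u ^ c) :
    ∃ K x₀ : ℕ, 0 < K ∧ ∀ x ≥ x₀, ∀ y, 0 < y → y ^ K ≤ x →
      (Quotient.mk (isIsomorphicSetoid GrpCat.{0}) '' {G | Finite G ∧ Nat.card G ≤ x ∧
        ∃ M : Subgroup G, M.Normal ∧ S64.Tame S M ∧ M.index ≤ y}).Finite ∧
      (Quotient.mk (isIsomorphicSetoid GrpCat.{0}) '' {G | (Finite G ∧ Nat.card G ≤ x ∧
        ∃ M : Subgroup G, M.Normal ∧ S64.Tame S M ∧ M.index ≤ y) ∧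
        ¬∃ (N : Subgroup G) (R : Set G), N ≤ Subgroup.center G ∧ Nat.card N = 2 ∧
          IsSemiregularRDS N R}).ncard * 2 ^ (Nat.log 2 x ^ 3 / K) ≤
      (Quotient.mk (isIsomorphicSetoid GrpCat.{0}) '' {G | Finite G ∧ Nat.card G ≤ x ∧
        ∃ M : Subgroup G, M.Normal ∧ S64.Tame S M ∧ M.index ≤ y}).ncard := by
  obtain ⟨K₀, n₁, h0, h1⟩ := S64.count_bad
  obtain ⟨K, x₀, k0, k1⟩ := S64.almost_all' (S := S) ⟨few, aut⟩ S64.sims_le
    (fun n => {F | Nat.card F = 2 ^ n ∧ ¬S64.Generic n F}) (fun _ _ h => h.1) h0 h1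
    (fun G => ¬∃ (N : Subgroup G) (R : Set G), N ≤ Subgroup.center G ∧ Nat.card N = 2 ∧
      IsSemiregularRDS N R) (T := 10 ^ 13) (n₂ := 10 ^ 6) (by norm_num)
    (fun n hn G _ O o1 o2 o3 hG => ⟨o2, fun hg => hG (by
      have : O.subtype.range.Normal := O.range_subtype.symm ▸ o1
      exact S64.rds_generic hn o2 hg O.subtype O.subtype_injective
        (O.range_subtype.symm ▸ o3))⟩)
  exact ⟨K, x₀, k0, fun x hx y y0 hy =>
    ⟨(S64.fin_le x).subset (Set.image_mono fun G hG => ⟨hG.1, hG.2.1⟩), k1 x hx y y0 hy⟩⟩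

end Pool.Agent.Results.MP_2d211a_co.AlmostAllTame
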