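import Pool.Agent.Lib.MP_2d211a_co.H42TwoF
import Pool.Agent.Lib.MP_2d211a_co.Two

namespace Pool.Agent.Results.MP_2d211a_co.BoundedExponent

open Pool.Agent.Lib.MP_2d211a_co

theorem result (p n e : ℕ) (hp : p.Prime) (E : Type) [Group E] (hE : Nat.card E = p ^ n)
    (he : Monoid.exponent E = p ^ e) (hn : 2 ≤ n)
    (ho : p ≠ 2 → 2 * e ≤ n + 1 ∧ ¬∃ A B : Subgroup E, IsCyclic A ∧ IsCyclic B ∧
      Nat.card A = Nat.card B ∧ p < Nat.card A ∧ A.IsComplement' B)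
    (ht : p = 2 → 2 * e ≤ n + 2 ∧ (n, e) ≠ (2, 1) ∧ (n, e) ≠ (4, 1) ∧ (n, e) ≠ (4, 3) ∧
      (n < 2 * e → ¬∃ t : E, orderOf t = 4 ∧ t ∉ Subgroup.center E ∧
        ∀ x : E, orderOf x = 2 ^ e → t ∈ Subgroup.zpowers x))
    (Z : Subgroup E) (hZ : Z ≤ Subgroup.center E) (hc : Nat.card Z = p) :
    ∃ (N : Subgroup E) (R : Set E), N ≤ Subgroup.center E ∧
      (Monoid.exponent E ≠ 2 → Nat.card N = p) ∧
      (Odd n ∨ (p ≠ 2 ∧ 2 * e < n) ∨ (p = 2 ∧ 2 * e ≤ n ∧ ∃ g : E, g ^ 2 ∈ Z ∧ g ^ 2 ≠ 1) → N = Z) ∧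
      IsSemiregularRDS N R := by
  have := Fact.mk hp
  have : Finite E := Nat.finite_of_card_ne_zero (hE ▸ (pow_pos hp.pos n).ne')
  obtain ⟨z, hz, rfl⟩ := H62.cen_of_card hZ hc
  have lt : p < Nat.card E := by
    rw [hE]
    exact lt_of_eq_of_lt (pow_one p).symm (Nat.pow_lt_pow_right hp.one_lt (by omega))
  have e0 : e ≠ 0 := fun h => hz.ne (by simpa using H62.exp_pow he h.le z)
  by_cases h : Odd n ∨ (p ≠ 2 ∧ 2 * e < n) ∨
      (p = 2 ∧ 2 * e ≤ n ∧ ∃ g : E, g ^ 2 ∈ Subgroup.zpowers z ∧ g ^ 2 ≠ 1)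
  · suffices h : ∃ m X, H62.Good z m X by
      obtain ⟨m, Y, hY⟩ := h
      obtain ⟨R, hR⟩ := hY.isRDS hz lt
      exact ⟨_, R, hZ, fun _ => hc, fun _ => rfl, hR⟩
    by_cases h1 : Odd n
    · by_cases hp2 : p = 2
      · subst hp2
        exact H62.two_odd' hE he hn h1 (ht rfl).1 (ht rfl).2.2.2.2 hz
      obtain ⟨k, rfl⟩ := h1
      exact ⟨_, H62.odd_good (lt_of_le_of_ne hp.two_le (Ne.symm hp2)) k E hE
        (H62.exp_pow he (by have := (ho hp2).1; omega)) z hz⟩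
    rw [Nat.not_odd_iff_even] at h1
    rcases h with h | ⟨hp2, h⟩ | ⟨rfl, h, g, g1, g2⟩
    · exact absurd h (Nat.not_odd_iff_even.2 h1)
    · obtain ⟨k, rfl⟩ := h1
      obtain ⟨j, rfl⟩ : ∃ j, k = j + 2 := ⟨k - 2, by omega⟩
      refine H62.shp (lt_of_le_of_ne hp.two_le (Ne.symm hp2)) j E (hE.trans (by congr 1; omega)) z hz
        fun g => ?_
      rw [← pow_mul, ← pow_succ, H62.exp_pow he (by omega)]
      exact one_mem _
    · obtain rfl := (H62.inv2 hz.pow g1).resolve_left g2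
      exact H62.two_even hE he hn h1 h hz
  have fin : (∃ z : E, H62.Cen p z ∧ ∃ m X, H62.Good z m X) →
      ∃ (N : Subgroup E) (R : Set E), N ≤ Subgroup.center E ∧
        (Monoid.exponent E ≠ 2 → Nat.card N = p) ∧ IsSemiregularRDS N R := by
    rintro ⟨z, hz, m, Y, hY⟩
    obtain ⟨R, hR⟩ := hY.isRDS hz lt
    exact ⟨_, R, Subgroup.zpowers_le.2 (Subgroup.mem_center_iff.2 hz.comm),
      fun _ => H62.card_zp hz.ne hz.pow, hR⟩
  suffices h1 : ∃ (N : Subgroup E) (R : Set E), N ≤ Subgroup.center E ∧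
      (Monoid.exponent E ≠ 2 → Nat.card N = p) ∧ IsSemiregularRDS N R by
    obtain ⟨N, R, h1, h2, h3⟩ := h1
    exact ⟨N, R, h1, h2, fun e => absurd e h, h3⟩
  by_cases hp2 : p = 2
  swap
  · obtain ⟨o1, o2⟩ := ho hp2
    exact fin (H62.odd_sharp (lt_of_le_of_ne hp.two_le (Ne.symm hp2)) hE (by omega)
      (H62.exp_pow he (by omega)) o2)
  subst hp2
  obtain ⟨t1, t2, t3, t4, t5⟩ := ht rfl
  obtain rfl | ⟨e, rfl⟩ : e = 1 ∨ ∃ l, e = l + 2 := by
    rcases e with _ | _ | e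
    exacts [absurd rfl e0, .inl rfl, .inr ⟨e, rfl⟩]
  swap
  · exact fin (H62.two_even' hE he hn (Nat.not_odd_iff_even.1 fun e => h (.inl e)) t1
      (fun ⟨a, b⟩ => t4 (Prod.ext a b)) t5)
  have h2 : ∀ x : E, x ^ 2 = 1 := fun x => by simpa using H62.exp_pow he le_rfl x
  have hc : ∀ a b : E, a * b = b * a := fun a b => by
    rw [← commutatorElement_eq_one_iff_mul_comm, H62.comm_sq, h2, h2, h2, one_mul, one_mul]
  let _ : CommGroup E := { (inferInstance : Group E) with mul_comm := hc }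
  have : Fintype (Additive E) := Fintype.ofFinite _
  obtain ⟨N, R, h⟩ : ContainsSemiregularRDS E := by
    classical
    refine ((contains_iff (Additive E)).trans (classify_two (G := Additive E) hE)).2
      ⟨hn, fun x => ?_, fun h => h.2.elim (fun e => t2 (by rw [e])) fun e => t3 (by rw [e])⟩
    change x.toMul ^ 2 ^ (n / 2 + 1) = 1
    rw [pow_succ', pow_mul, h2, one_pow]
  exact ⟨N, R, fun a _ => Subgroup.mem_center_iff.2 fun g => hc g a, fun e => absurd he e, h⟩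

end Pool.Agent.Results.MP_2d211a_co.BoundedExponent
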