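import Pool.Agent.Lib.MP_2d211a_co.H51Main

namespace Pool.Agent.Results.MP_2d211a_co.HadamardDS

open Pool.Agent.Lib.MP_2d211a_co

theorem result (v : ℕ) (hv : 0 < v) : List.TFAE
    [∃ a m : ℕ, v = 2 ^ a * m ^ 2,
     ∃ (G T : Type) (_ : Group G) (_ : Group T) (n : ℕ), Nat.card G = v ∧ Nat.card T = 2 ^ n ∧
       ∃ R : Set ((G × T) × Multiplicative (ZMod 2)),
         IsSemiregularRDS ((⊥ : Subgroup (G × T)).prod ⊤) R,
     ∃ n : ℕ, ∀ j : ℕ, ∃ (T : Type) (_ : Group T), Nat.card T = 2 ^ (n + 2 * j) ∧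
       ∀ (G : Type) [Group G], Nat.card G = v →
         (∃ R : Set ((G × T) × Multiplicative (ZMod 2)),
           IsSemiregularRDS ((⊥ : Subgroup (G × T)).prod ⊤) R) ∧
         ∃ (u : ℕ) (D : Set (G × T)), Nat.card (G × T) = 4 * u ^ 2 ∧ D.ncard = 2 * u ^ 2 - u ∧
           ∀ g : G × T, g ≠ 1 →
             {q : (G × T) × (G × T) | q.1 ∈ D ∧ q.2 ∈ D ∧ q.1 * q.2⁻¹ = g}.ncard = u ^ 2 - u] := by
  tfae_have 1 → 3 := by
    rintro ⟨a, m, h⟩
    obtain ⟨n, H⟩ := H51.exists_un a m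
    refine ⟨n + 2, fun j => ?_⟩
    obtain ⟨T, _, _, hT, H⟩ := H (j + 1)
    refine ⟨T, inferInstance, by rw [Nat.card_eq_fintype_card, hT]; congr 1; omega,
      fun G _ hG => ?_⟩
    have := Nat.finite_of_card_ne_zero (hG ▸ hv.ne')
    have := Fintype.ofFinite G
    obtain ⟨c, H⟩ := H G (Nat.card_eq_fintype_card.symm.trans (hG.trans h))
    have h2 : 2 ∣ Fintype.card (G × T) := by
      rw [Fintype.card_prod, hT]
      exact Dvd.dvd.mul_left (dvd_pow_self 2 (by omega)) _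
    exact ⟨H.rds (Nat.le_of_dvd Fintype.card_pos h2), H.hds h2⟩
  tfae_have 3 → 2 := by
    rintro ⟨n, H⟩
    obtain ⟨T, _, hT, H⟩ := H 0
    exact ⟨Multiplicative (ZMod v), T, inferInstance, inferInstance, _, Nat.card_zmod v, hT,
      (H (Multiplicative (ZMod v)) (Nat.card_zmod v)).1⟩
  tfae_have 2 → 1 := by
    rintro ⟨G, T, _, _, n, hG, hT, R, H⟩
    have := Nat.finite_of_card_ne_zero (hG ▸ hv.ne')
    have := Nat.finite_of_card_ne_zero (hT ▸ (Nat.two_pow_pos n).ne')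
    have := Fintype.ofFinite (G × T)
    obtain ⟨y, hy⟩ := H51.sq_of_rds H
    exact H51.odd_part _ n 0 y (by
      rw [← hG, ← hT, ← Nat.card_prod, Nat.card_eq_fintype_card, hy, pow_zero, one_mul])
  tfae_finish

end Pool.Agent.Results.MP_2d211a_co.HadamardDS
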